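import Pool.Agent.H851.KD.Pub

/-!
# Varieties with `h^{2,0} = 1` times abelian varieties: independent, or Kuga-Satake

Let `V` be the second cohomology of a smooth projective variety `X` over a number field `K` with `h^{2,0} = 1`
(or any motive of K3 type) and `W = H^1(A)` for an abelian variety `A` over `K` of any dimension, in `ℓ`-adic
cohomology. We assume that `V` is semisimple, and that its Tate endomorphisms (those which commute with an open
subgroup of the Galois group) are scalars on the transcendental part `T`, the orthogonal complement of the Tate
classes, with `d = dim T ≥ 3`. (`W` is semisimple by Faltings.) The identity component of the `ℓ`-adic monodromy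
group of `V(1)` is `SO(T)`. What can the `ℓ`-adic monodromy group of `V(1) ⊕ W` be? If `X` and `A` are independent
it is the product; but if `A` is the Kuga-Satake variety of `X` then the group of `W` determines that of `V(1)`.
We prove that there are no other possibilities.

**Theorem.** There are a projection `P` of `W` and operators `ψ(x, y)` on `P W` for `x, y` in `T`, bilinear in
`x, y`, which satisfy the relations of the products `x y` in the even Clifford algebra of `T`,

    ψ(x, x) = q(x) P,   ψ(x, y) ψ(y, z) = q(y) ψ(x, z),

and which are equivariant for the full Galois group: `g ψ(x, y) g⁻¹ = ψ(g x, g y)`; in particular `P W` is a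
subrepresentation of `W`, and a module of the even Clifford algebra `C⁺(T)`. The pairs
`(x ∧ y, (q(x, y) P - ψ(x, y)) / 2)` are in the Lie algebra of the monodromy group of `V(1) ⊕ W`. The dimension
of `P W` is divisible by `2 ^ ((d - 1) / 2)` (integral part). The following conditions are equivalent:

* `P = 0`;
* `V(1)` and `W` are independent: `(X, 0)` is in the Lie algebra of `V(1) ⊕ W` for all `X` in the Lie algebra
  `so(T)` of `V(1)`, so that the Lie algebra of `V(1) ⊕ W` is the product of those of `V(1)` and `W`;
* no part of `W` is a nonzero module of `C⁺(T)` in an equivariant way, even over finite extensions of `K`;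
* every bilinear map `V × V → End(W)` which is equivariant for an open subgroup of the Galois group (for the
  action on `V(1)`) is symmetric on `T`, that is, the representation `Λ² T(1)` has no nonzero map to `End(W)`.

If the Mumford-Tate conjecture holds for `X` and for `A`, and `A` has no factor of Kuga-Satake type for `T`
(`P = 0`), then the `ℓ`-adic group of the sum is, by this theorem, the full product of those of `X` and `A`; so it
contains the Mumford-Tate group of the sum, and the motivic version of the conjecture (with the motivic Galois
group, which is contained in the product) holds for the sum if it holds for `X` and `A`. If `P` is not zero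
then there is an explicit Tate class `ψ` in `T(1)^∨ ⊗ T(1)^∨ ⊗ End(W)` which, with those of `V(1)` and of `W`,
accounts for the defect. For K3 surfaces the Kuga-Satake construction and the work of Deligne, André and
Tankeev give the existence of such an `A`, but in general no abelian variety is known to be related to `V`; the
theorem says what such a relation must look like. On the Hodge side this is the classification of the
representations of orthogonal groups of Hodge type (Satake, Deligne); here the `ℓ`-adic group of `W` is not
known, and there is no Hodge cocharacter.

The proof. Take a place of degree one where `V` is ordinary (Newton polygon `0, 1, ..., 1, 2`). The valuations of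
the eigenvalues of the Frobenius element, for a suitable extension to the algebraic closure of `ℚ_ℓ`, define an
element `N` of the Lie algebra of the monodromy group over this closure. On `T` it is `v' ∧ v` for a hyperbolic
plane, and on `W`, after a shift, its eigenvalues are in an interval of length one, because the slopes of `W`
are between `0` and `1`. Let `𝔰` be the orthogonal complement, for the trace form, of the ideal of the elements
which are zero on `V`. It is isomorphic to `so(T)` and stable under the Galois group; this gives operators `A(x, y)` on `W`
for `x ∧ y`. The operators `A(v, u)`, `u` orthogonal to `v, v'`, shift the eigenvalues of `N` by one. Therefore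
`A(v, u)² = 0`, and the Lie algebra relations give `A(v', v)³ = A(v', v) / 4` and, step by step, all relations of
the Clifford algebra, with `P = 4 A(v', v)²`. The projection is equal to `-4 A(x, y)² / (q(x) q(y))` for all
orthogonal vectors `x, y` with `q(x) q(y) ≠ 0`, and so it is defined over `ℚ_ℓ` and commutes with the Galois
group. If the equivariant maps are symmetric then `A(x, y) = 0`, since it is alternating.

The facts on `V` which are used are collected in the structure `IsK3Type`: at almost all primes `p` and places
of degree one above `p` the characteristic polynomial of the Frobenius element is monic with integral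
coefficients, with zeros of absolute value `p`, and its Newton polygon lies above the Hodge polygon. The matrix
`tw χ ρ g = χ(g)⁻¹ ρ(g)` is the action on `V(1)`, as `χ` is the inverse of the cyclotomic character. For `W` it
is only used that Frobenius elements are zeros of integral polynomials of weight one (`WeightOneRep`). No
`p`-adic Hodge theory at `ℓ`, no comparison with Hodge structures and no moduli spaces are used.
-/

set_option autoImplicit false

namespace Pool.Agent.Results.MP_c1bb77_ag.KugaSatakeDichotomy

open Polynomial NumberField IsDedekindDomain Matrix Module
open Pool.Agent.H851.K3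
open Pool.Agent.H851.TT (ScalarEnds)
open Pool.Agent.H851.KD (WeightOneRep IsKugaSatake LieOf Independent NoKugaSatake MapsSymmetric)
open Pool.Agent.NH56.HY (GK)

/-- **Independence or Kuga-Satake.** `ρ` is the action of the Galois group of `K` on `V = ℚ_ℓ ^ n`, `q` the form,
`χ` the inverse of the cyclotomic character, and `σ` the action on `W = ℚ_ℓ ^ m`. -/
theorem result {K : Type} [Field K] [NumberField K] {ℓ : ℕ} [Fact ℓ.Prime] {n : Type} [Fintype n]
    [DecidableEq n] {q : Matrix n n ℚ_[ℓ]} {S : Finset ℕ} {χ : GK K →* ℚ_[ℓ]}
    {Pol : HeightOneSpectrum (𝓞 K) → ℤ[X]} {ρ : GK K →* Matrix n n ℚ_[ℓ]} {m : Type} [Fintype m]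
    [DecidableEq m] {σ : GK K →* Matrix m m ℚ_[ℓ]}
    (h : IsK3Type q S χ Pol ρ) (hss : Semisimple ρ) (hc : ScalarEnds q χ ρ)
    (hd : 3 ≤ finrank ℚ_[ℓ] (orth q (tate χ ρ))) (hσs : Semisimple σ) (hσ : WeightOneRep σ) :
    ∃ (P : Matrix m m ℚ_[ℓ]) (ψ : (n → ℚ_[ℓ]) → (n → ℚ_[ℓ]) → Matrix m m ℚ_[ℓ]),
      IsKugaSatake q χ ρ σ ⊤ P ψ ∧ LieOf q χ ρ σ P ψ ∧
      2 ^ ((finrank ℚ_[ℓ] (orth q (tate χ ρ)) - 1) / 2) ∣ P.rank ∧
      List.TFAE [P = 0, Independent χ ρ σ, NoKugaSatake q χ ρ σ, MapsSymmetric q χ ρ σ] :=
  Pool.Agent.H851.KD.ks_main h hss hc hd hσs hσ

end Pool.Agent.Results.MP_c1bb77_ag.KugaSatakeDichotomy
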