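import Pool.Agent.H367.OS.OTan

/-!
# The Mumford-Tate conjecture in one degree and single pieces of one sequence of cubics

A relation `r` of size `m` is one of the equations `x_i x_j = x_l`, `x_i + x_j = x_l`, `x_i = 1` with
`i, j, l < m`; the relations are numbered, the number of `r` is `ν(r)` (`relNum`). Let `G_m` be the
following polynomial with integral coefficients (`univG ℤ m`). There are variables `x_i` and `z_ij` for
`i, j < m`, a variable `c_r` for every relation `r`, and variables `y_{r,l}` for all relations `r` and
`l < (m + 1) 2 ^ ν(r)`. The equations (`eqnG`) are

  `z_ij - x_i x_j`,  `c_r ^ 2 - c_r`,  `c_r ρ_r`,  `(1 - c_r) y_{r,l}`,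

where `ρ_r` is the linear polynomial `z_ij - x_l`, `x_i + x_j - x_l` or `x_i - 1` of the relation.
`G_m` is the sum of the equations multiplied by further variables `t_e`, one for each equation. It has
degree three. Let `C_m` be the affine cubic hypersurface `G_m = 1` (`cubG R m` over the ring `R`); it is
smooth over the integers.

Let `ℓ` be a prime number, and let `M` be the category of motives over `ℚ` (motivated cycles), a
semisimple abelian category with Tate twists `N ↦ N(a)`. For a separated scheme `X` of finite type
over `ℚ` let `D.G w j X = Gr^W_w H^j_c(X)` be the part of weight `w` of the cohomology with compact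
supports, a motive over `ℚ`; for smooth projective `Y` it is `h^j(Y)` if `j = w`, and zero otherwise.

Let `E` be the algebraic closure of `ℚ_ℓ` and `W N = H(N) ⊗ E` for the Betti realization `H(N)`; it is
also the `ℓ`-adic realization, with coefficients extended to `E`. The group `P.A N` is the group of
the `E`-points of the Mumford-Tate group of `N`, and `P.B N` the group of the `E`-points of the
identity component of the Zariski closure of the image of the Galois group; both are subgroups of
`GL(W N)`. `Same P N` is the Mumford-Tate conjecture for `N`. For a direct factor of `N` the two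
groups are the images by restriction (hypotheses `mt`, `gl`).

For a number field `K`, an embedding `σ : K → ℂ` and a smooth projective scheme `X` over `K` let `C.MT
K σ i X` and `C.Gal K σ i X` be the groups for `H^i(X)`. `Holds C i K X` is the Mumford-Tate
conjecture for `H^i(X)`, for all `σ`, and `AllNF (Holds C i)` is question Q1 in degree `i` (for `ℓ`).
The scheme `X` over `K` is a smooth projective scheme over `ℚ`, and its cohomology over `ℚ` is the
direct sum of the conjugates of `H^i(X)`; so question Q1 for `K` follows from the conjecture for `ℚ`
(hypothesis `FromQ`).

**Theorem.** Let `E_m` be the number of the equations, and for `N ∈ ℕ` let `e = (m + 1) N + E_m - 1`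
(`esh m N`).

(1) For every degree `i` the Mumford-Tate conjecture for `H^i` is true for all smooth projective
varieties over all number fields if and only if for infinitely many `m` it is true for the single
motives `Gr^W_{i+2e} H^{i+2e+1}_c(C_m)(e)`, for all `N`.

(2) The hypersurfaces `C_m` decide the statement for the pieces of the cohomology (`DecidesPieces`).
For every affine scheme `Spec B` of finite type over `ℚ` and all large `m` there is an `N` such that
for `0 ≤ w ≤ 2 m + 1` and all `j` the statement for `Gr^W_w H^j_c(Spec B)` is equivalent to the one
for `Gr^W_{w+2e} H^{j+2e+1}_c(C_m)`. For every smooth projective `Y` over `ℚ`, every `d` and all large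
`m` there is an `e'` such that for all `i ≤ d` the statement for `h^i(Y)` is equivalent to the one for
`Gr^W_{i+2e'} H^{i+2e'+1}_c(C_m)`. The statements for the pieces of one `C_m` imply those for all
pieces of a given separated scheme `X` of finite type. (In all these statements there are the same
Tate twists on both sides, up to the shift by `e`.)

(3) `G_m` has integral coefficients and degree at most three, and `C_m` is smooth over all rings.

The hypotheses on the motives are standard (`IsMot`): exact sequences, affine bundles, disjoint unions,
the cohomology of affine spaces, the weights of `H^j_c(X)` are between `0` and `2 dim X`, monomorphisms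
split, `Gr^W_w H^j_c(X)` is a direct factor of `h^w(Y)` for some smooth projective `Y` (it is a
subquotient, by the weight spectral sequence), and every smooth projective scheme has an affine bundle
whose total space is affine (Jouanolou).

Idea of the proof. The projection of `C_m` to the affine space with the coordinates `x, z, c, y` is an
affine bundle over the complement of the zero set `W_m` of the equations. The scheme `W_m` is the
disjoint union, over all sets `s` of relations (`c_r = 1` for `r ∈ s` and `c_r = 0` for the others), of
the products `X_s × 𝔸 ^ ((m + 1) N(s))`, where `X_s` is the affine scheme defined by the relations in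
`s` and `N(s) = ∑_{r ∈ s} 2 ^ ν(r)`. The numbers `N(s)` are different, and the weights of the
cohomology of `X_s` are between `0` and `2 m`. So the part of weight `w + 2 (m + 1) N(s)`,
`0 ≤ w ≤ 2 m + 1`, of the cohomology of `W_m` is the twist of the part of weight `w` of the cohomology of
`X_s`, and it is different from the weight of the cohomology of the affine space. Every affine scheme of
finite type over a prime field is an `X_s`, for all large `m`. The pieces of the cohomology of an
arbitrary scheme are direct factors of those of a disjoint union of affine schemes.

The universal system of relations is the one of helper854 (`Pool.Agent.H854.SQ`).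
-/

set_option autoImplicit false

open CategoryTheory CategoryTheory.Limits AlgebraicGeometry Pool.Agent.Y116.UV Pool.Agent.Z125.UN
  Pool.Agent.Q193.LT Pool.Agent.H854.SQ Pool.Agent.H367.OS Pool.Agent.Q137.UO

universe v u



namespace Pool.Agent.Results.MP_c1bb77_ag.PiecesOfOneSequence

/-- The Mumford-Tate groups and the identity components of the `ℓ`-adic monodromy groups (their points in
an algebraic closure of `ℚ_ℓ`) for the cohomology `H^i(X)` of the smooth projective schemes `X` over the
number fields `K` with an embedding in `ℂ`. -/
structure Groups (ℓ : ℕ) [Fact ℓ.Prime] where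
  /-- the vector space `H^i(X_ℂ, ℚ) ⊗ E` -/
  V : ∀ (K : Type) [Field K] [NumberField K] (_ : K →+* ℂ), ℕ → Sch K →
    ModuleCat.{0} (AlgebraicClosure ℚ_[ℓ])
  /-- the Mumford-Tate group -/
  MT : ∀ (K : Type) [Field K] [NumberField K] (σ : K →+* ℂ) (i : ℕ) (X : Sch K),
    Subgroup (Aut (V K σ i X))
  /-- the identity component of the algebraic monodromy group -/
  Gal : ∀ (K : Type) [Field K] [NumberField K] (σ : K →+* ℂ) (i : ℕ) (X : Sch K),
    Subgroup (Aut (V K σ i X))

/-- The Mumford-Tate conjecture for `H^i(X)`. -/
def Holds {ℓ : ℕ} [Fact ℓ.Prime] (C : Groups ℓ) (i : ℕ) (K : Type) [Field K] [NumberField K]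
    (X : Sch K) : Prop :=
  ∀ σ : K →+* ℂ, C.Gal K σ i X = C.MT K σ i X

/-- **The Mumford-Tate conjecture and single pieces of one sequence of cubic hypersurfaces over the
integers.** See the explanations above. -/
theorem result {ℓ : ℕ} [Fact ℓ.Prime] {M : Type u} [Category.{v} M] [Abelian M] {D : Pieces ℚ M}
    (h : IsMot D) {C : Groups ℓ} {W : M ⥤ ModuleCat.{0} (AlgebraicClosure ℚ_[ℓ])}
    {P : GroupPair W} (mt : Restricts P.A) (gl : Restricts P.B)
    (describes : ∀ i : ℕ, FromQ (Holds C i) fun Y => Same P (D.G i i Y)) :
    (∀ i : ℕ, AllNF (Holds C i) ↔ ∃ᶠ m in Filter.atTop, ∀ N : ℕ,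
      Same P ((D.tw (esh m N)).obj
        (D.G (i + 2 * esh m N) (i + 2 * esh m N + 1) (cubG ℚ m)))) ∧
    DecidesPieces D (Same P) ∧
    ∀ m : ℕ, (univG ℤ m).totalDegree ≤ 3 ∧
      ∀ (R : Type) [CommRing R], MvPolynomial.map (Int.castRingHom R) (univG ℤ m) = univG R m ∧
        Smooth (cubG R m).hom := by
  have hf : FactorClosed (Same P) := same_closed mt gl
  have hd := decides_pieces isPrimeField_rat h hf
  exact ⟨fun i => (describes i).all.trans (hd.degree h.pieces hf.isoInv i), hd, cubG_facts⟩

end Pool.Agent.Results.MP_c1bb77_ag.PiecesOfOneSequence
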