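import Mathlib
import Pool.Agent.H853.SR.Fin

/-!
# One strongly regular Frobenius element reduces the Mumford-Tate conjecture to endomorphisms

Let `X i` be finitely many smooth projective varieties over a number field `k`, `M i` a direct factor of
the cohomology of `X i` (for instance all of `H ^ m (X i)`), `Γ` the absolute Galois group of `k` (or a
quotient of it through which it acts, a compact group), `ρ i` the action of `Γ` on the `ℓ`-adic cohomology
`M i`, `V` the direct sum of these spaces, and `𝔤` the Lie algebra (over `ℚ_ℓ`) of the Mumford-Tate group `G`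
of the sum `M` of the `M i`, if the Hodge classes on the powers are known to be Tate classes: this is so
for abelian varieties (Deligne), K3 surfaces, and all abelian motives; in general let `G` be the motivic
Galois group of `M` over the algebraic closure of `k` (for motivated cycles, in the sense of André), which
contains the Mumford-Tate group and is equal to it if the Hodge classes are motivated.  The property
`Motivic ρ 𝔤` (structure `IsMotivic`, from the library) states the properties of `𝔤` which are used: it is
a Lie algebra, it respects the direct sum, it is reductive (trace form nondegenerate, completely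
reducible on `V`), it consists of all endomorphisms which kill the tensors killed by `𝔤`, and these
tensors are Tate tensors (fixed by a subgroup of finite index of `Γ`).  Nothing is assumed on the type of
the group, on the Hodge numbers, on the weights, on the rank of the Frobenius tori, or on good reduction.

Suppose that `V` is semisimple (for the subgroups of finite index of `Γ`; by Faltings this is so for
`H ^ 1`), and that ONE element `γ` of `Γ`, for instance one Frobenius element, is *strongly regular* for
`𝔤`: on `𝔤 ⊗ ℂ` (`ℂ` is an extension of `ℚ_ℓ` by the choice of an embedding) the conjugation by `γ` has only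
simple eigenvalues apart from the eigenvalue `1`, none of them is a root of unity, and the elements in the
generalized eigenspace for the eigenvalue `1` commute with each other.  If `γ` is in the connected
component of `G`, this says that the roots of `G` with respect to a maximal torus `T` which contains the
semisimple part of `γ` take pairwise different values at `γ`, which are not roots of unity.  This is a
condition on the multiplicative relations `a d = b c` of length four between eigenvalues of `γ`, and only
on those for which `a / b` and `c / d` are values of roots: relations of other kinds, and all relations of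
greater length, are allowed; in particular the Frobenius torus may have any rank.

Theorem.  (1) Let `𝔤'` be the set of the elements of `𝔤` which commute with all Tate endomorphisms
(endomorphisms of `V` which commute with a subgroup of finite index of `Γ`).  Every element of `𝔤'` is
the sum of an endomorphism in `𝔤'` which commutes with all elements of `𝔤'`, and of an endomorphism
which kills all Tate tensors.  So the Lie algebra of the `ℓ`-adic monodromy group and the centralizer in
`𝔤` of the Tate endomorphisms are equal up to the centre (they have the same derived algebra).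

(2) The Tate tensors are those killed by `𝔤`, so the connected component of the `ℓ`-adic monodromy group
is `G`, if and only if all Tate endomorphisms commute with `𝔤` and the Tate tensors are killed by the
centre of `𝔤` (there is no condition if the centre is zero).

For an abelian variety `A` over a number field the conditions on the right in (2) are known (Faltings,
and the known part of the conjecture on the centres of the two groups): so the Mumford-Tate conjecture
holds for `A` if one Frobenius element is strongly regular for the Mumford-Tate group of `A`.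

In comparison: the library module `MP_b8862a_ag.EndomorphismsSuffice` has a Frobenius torus of maximal
rank, that is, of the rank of `𝔤`, instead of strong regularity (and then proves semisimplicity from
three primes of good reduction); that the Frobenius tori have this rank is a consequence of the
Mumford-Tate conjecture and of comparable depth.  `ZFourTermMumfordTate` and
`MP_6c781a_ag.FourTermAllTypes` treat abelian varieties with a Frobenius element without any nontrivial
relation of length four; there the group `G` must be as large as the endomorphisms allow.  Here only the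
relations of length four which do not hold on the torus of `G` itself, for arbitrary `G`, are excluded.
Our `MP_b8862a_ag.FrobeniusOrbits` proves the semisimplicity and the condition on the endomorphisms from
more Frobenius elements, for a part or for almost all of the primes `ℓ`.

The proof.  Let `L` be the Lie algebra of the endomorphisms which kill all Tate tensors.  As `V` is
semisimple, the trace form is nondegenerate on `L` and on `𝔤'` (the elements of its radical are
nilpotent, since the Lie algebra of a tensor stabilizer contains the replicas of its elements, and the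
theorem of Engel applies).  `L` contains the torus of `γ`, so that the elements of `𝔤'` which commute
with the semisimple part of `γ` form a maximal torus `t` of `𝔤' ⊗ ℂ`.  `L` is stable under the
conjugation by `γ`, and so, because the eigenvalues are simple, it is stable under `t`.  If `a` is in `t`,
the component of `a` orthogonal to `L` commutes with `L`, so with `𝔤'`: hence `t` is contained in the sum
of `L` and the centre of `𝔤'`, and this sum is `𝔤'` by the lemma on reductive subalgebras of maximal rank
with the same centralizer.
-/

set_option autoImplicit false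

namespace Pool.Agent.Results.MP_c1bb77_ag.StronglyRegularFrobenius

open Module Pool.Agent.Y114.TF Pool.Agent.Y114.GF Pool.Agent.Y114.MU Pool.Agent.Y114.RM
  Pool.Agent.H204R3.GP Pool.Agent.NH34.BD Pool.Agent.H853.SR

section general

variable {k : Type} [Field k] {V : Type} [AddCommGroup V] [Module k V] {Γ : Type} [Group Γ]
  (ρ : Representation k Γ V)

/-- `X` commutes with all Tate endomorphisms: with all endomorphisms of `V` which commute with a
subgroup of finite index of `Γ`. -/
def CommutesWithTate (X : End k V) : Prop :=
  ∀ Y : End k V, (∃ Δ : Subgroup Γ, Δ.FiniteIndex ∧ ∀ γ ∈ Δ, Y * ρ γ = ρ γ * Y) → X * Y = Y * X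

/-- `X` kills all Tate tensors. -/
def KillsAll (X : End k V) : Prop :=
  ∀ (m : ℕ) (φ : Tensor k V m), TateTensor ρ φ → KillsTensor X φ

/-- Every `X ∈ 𝔤` which commutes with all Tate endomorphisms is, up to an endomorphism which kills all
Tate tensors, an element `Z` of `𝔤` with the same property which commutes with all elements of `𝔤`
with this property. -/
def IsGeneratedUpToCentre (𝔤 : Submodule k (End k V)) : Prop :=
  ∀ X ∈ 𝔤, CommutesWithTate ρ X → ∃ Z ∈ 𝔤, CommutesWithTate ρ Z ∧
    (∀ Y ∈ 𝔤, CommutesWithTate ρ Y → Z * Y = Y * Z) ∧ KillsAll ρ (X - Z)

/-- All elements of `𝔤` commute with all Tate endomorphisms. -/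
def AllCommute (𝔤 : Submodule k (End k V)) : Prop := ∀ X ∈ 𝔤, CommutesWithTate ρ X

/-- The elements of the centre of `𝔤` kill all Tate tensors. -/
def CentreKillsAll (𝔤 : Submodule k (End k V)) : Prop :=
  ∀ Z ∈ 𝔤, (∀ Y ∈ 𝔤, Z * Y = Y * Z) → KillsAll ρ Z

end general

section defs

variable {Γ : Type} [Group Γ] {ι : Type} {n : ι → ℕ} {ℓ : ℕ} [Fact ℓ.Prime]
  (ρ : Reps Γ n ℓ) (𝔤 : EndSpace n ℓ)

/-- Up to the centre, the elements of `𝔤` which commute with all Tate endomorphisms kill all Tate
tensors (see `IsGeneratedUpToCentre`). -/
def TateGeneratedUpToCentre : Prop := IsGeneratedUpToCentre (sumRep ρ) 𝔤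

/-- The Tate conjecture for endomorphisms: `𝔤` commutes with all Tate endomorphisms. -/
def TateForEndomorphisms : Prop := AllCommute (sumRep ρ) 𝔤

/-- The centre of `𝔤` kills the Tate tensors. -/
def CentreKillsTateTensors : Prop := CentreKillsAll (sumRep ρ) 𝔤

/-- `γ` is strongly regular for `𝔤`: it normalizes `𝔤`; the elements of `𝔤 ⊗ ℂ` in the generalized
eigenspace for the eigenvalue `1` of the conjugation by `γ` commute with each other; the other
eigenvalues are simple, and they are not roots of unity (see `H853.SR.StronglyRegular`). -/
def IsStronglyRegular [Algebra ℚ_[ℓ] ℂ] (γ : Γ) : Prop := StronglyRegular (sumRep ρ) 𝔤 γ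

end defs

theorem result {Γ : Type} [Group Γ] [TopologicalSpace Γ] [IsTopologicalGroup Γ] [CompactSpace Γ]
    {ι : Type} [Fintype ι] [DecidableEq ι] {n : ι → ℕ} {ℓ : ℕ} [Fact ℓ.Prime]
    -- `ℂ` as an extension of `ℚ_ℓ`
    [Algebra ℚ_[ℓ] ℂ]
    -- the `ℓ`-adic realizations of the `M i`, and the Lie algebra of the motivic Galois group
    (ρ : Reps Γ n ℓ) (hρ : Conts ρ) (𝔤 : EndSpace n ℓ) (h𝔤 : Motivic ρ 𝔤)
    -- semisimplicity
    (hss : Semisimple ρ)
    -- one strongly regular element
    (γ : Γ) (hγ : IsStronglyRegular ρ 𝔤 γ) :
    TateGeneratedUpToCentre ρ 𝔤 ∧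
      (TateTensorsOf ρ 𝔤 ↔ TateForEndomorphisms ρ 𝔤 ∧ CentreKillsTateTensors ρ 𝔤) := by
  obtain ⟨L, hL, hLie, hAd, -⟩ :=
    inputs.lie ℚ_[ℓ] (∀ i, Fin (n i) → ℚ_[ℓ]) _ (sumRep ρ)
  have hLG : L ≤ 𝔤 := fun X hX =>
    IsMotivic.algebraic h𝔤 X fun m φ hφ => ((hL X).1 hX).2 m φ (IsMotivic.tate h𝔤 m φ hφ)
  have hmain := local_main (sumRep ρ) inputs inputs2 hss hL hLie hAd (IsMotivic.bracket h𝔤)
    (IsMotivic.algebraic h𝔤) hLG γ hγ
  obtain ⟨Δ', hΔ', hcomm⟩ := inputs2.tfr ℓ ι n _ ρ hρ (comm L) (comm_conj (sumRep ρ) hAd)
    (comm_order (sumRep ρ) inputs inputs2 hL)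
  have hc1 : ∀ X, CommutesWithTate (sumRep ρ) X → ∀ Y ∈ comm L, X * Y = Y * X := fun X hX Y hY =>
    hX Y ⟨Δ', hΔ', fun γ hγ => (hcomm γ hγ Y hY).symm⟩
  have hc2 : ∀ X, (∀ Y ∈ comm L, X * Y = Y * X) → CommutesWithTate (sumRep ρ) X := by
    rintro X hX Y ⟨Δ, hΔ, hY⟩
    exact hX Y fun Z hZ => tate_comm (sumRep ρ) ((hL Z).1 hZ).2 hΔ hY
  refine ⟨fun X hX hXc => ?_, fun h => ⟨?_, fun Z hZ _ m φ hφ => (h m φ).1 hφ Z hZ⟩, ?_⟩
  · obtain ⟨x, hx, z, hz, rfl⟩ := hmain X ⟨hX, hc1 X hXc⟩
    refine ⟨z, hz.1.1, hc2 z hz.1.2, fun Y hY hYc => hz.2 Y ⟨hY, hc1 Y hYc⟩, ?_⟩
    rw [add_sub_cancel_right]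
    exact ((hL x).1 hx).2
  · rintro X hX Y ⟨Δ, hΔ, hY⟩
    exact tate_comm (sumRep ρ) (fun m φ hφ => (h m φ).1 hφ X hX) hΔ hY
  · rintro ⟨hE, hC⟩ m φ
    refine ⟨fun hφ X hX => ?_, IsMotivic.tate h𝔤 m φ⟩
    obtain ⟨x, hx, z, hz, rfl⟩ := hmain X ⟨hX, hc1 X (hE X hX)⟩
    have h1 := ((hL x).1 hx).2 m φ hφ
    have h2 := hC z hz.1.1 (fun Y hY => hz.2 Y ⟨hY, hc1 Y (hE Y hY)⟩) m φ hφ
    intro v
    have h3 : ∀ l, φ (Function.update v l (lie (x + z) (v l))) =
        φ (Function.update v l (lie x (v l))) + φ (Function.update v l (lie z (v l))) := by
      intro l
      have h4 : lie (x + z) = lie x + lie z :=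
        map_add (Pool.Agent.Y914.RM.lieL ℚ_[ℓ] (∀ i, Fin (n i) → ℚ_[ℓ])) x z
      rw [h4, LinearMap.add_apply, MultilinearMap.map_update_add]
    rw [Finset.sum_congr rfl fun l _ => h3 l, Finset.sum_add_distrib, h1 v, h2 v, add_zero]

end Pool.Agent.Results.MP_c1bb77_ag.StronglyRegularFrobenius
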